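import Mathlib
import Pool.Agent.W2helper24.TQ.Stm5
import Pool.Agent.W2helper89.TQ.E2

/-!
# Piece E7 of project TQ, first part: the units modulo `c`, the composite of two Artin maps
-/

set_option autoImplicit false
set_option linter.unusedSectionVars false

namespace Pool.Agent.W2helper8.TQE7

open NumberField IsDedekindDomain
open Pool.Agent.W2helper24.TQ
open Pool.Agent.Y696 (und und_lies mem_under_of_lies exists_above unr_g IsArtin)
open Pool.Agent.W2helper89.TQE2 (unr_of_inertia)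

section units
variable {K : Type} [Field K] [NumberField K]

lemma unitN_iff {c : 𝓞 K} (a : 𝓞 K) : IsUnit (Ideal.Quotient.mk (Ideal.span {c}) a) ↔ IsCoprime a c := by
  constructor
  · intro h
    obtain ⟨b, hb⟩ := h.exists_right_inv
    obtain ⟨b, rfl⟩ := Ideal.Quotient.mk_surjective b
    rw [← map_mul, ← map_one (Ideal.Quotient.mk (Ideal.span {c})),
      Ideal.Quotient.mk_eq_mk_iff_sub_mem, Ideal.mem_span_singleton'] at hb
    obtain ⟨t, ht⟩ := hb
    exact ⟨b, -t, by linear_combination -ht⟩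
  · rintro ⟨x, y, h⟩
    have h1 := congrArg (Ideal.Quotient.mk (Ideal.span {c})) h
    rw [map_add, map_mul, map_mul, map_one, Ideal.Quotient.eq_zero_iff_mem.2
      (Ideal.mem_span_singleton_self c), mul_zero, add_zero] at h1
    exact IsUnit.of_mul_eq_one _ (by rw [mul_comm]; exact h1)

/-- the reduction of the units modulo `c` -/
noncomputable def red {c₁ c : 𝓞 K} (h : c₁ ∣ c) :
    (𝓞 K ⧸ Ideal.span {c})ˣ →* (𝓞 K ⧸ Ideal.span {c₁})ˣ :=
  Units.map (Ideal.Quotient.factor (Ideal.span_singleton_le_span_singleton.2 h) :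
    𝓞 K ⧸ Ideal.span {c} →* 𝓞 K ⧸ Ideal.span {c₁})

lemma red_mk {c₁ c : 𝓞 K} (h : c₁ ∣ c) {u : (𝓞 K ⧸ Ideal.span {c})ˣ} {α : 𝓞 K}
    (hu : (u : 𝓞 K ⧸ Ideal.span {c}) = Ideal.Quotient.mk _ α) :
    ((red h u : (𝓞 K ⧸ Ideal.span {c₁})ˣ) : 𝓞 K ⧸ Ideal.span {c₁}) = Ideal.Quotient.mk _ α := by
  change Ideal.Quotient.factor (Ideal.span_singleton_le_span_singleton.2 h)
    (u : 𝓞 K ⧸ Ideal.span {c}) = _
  rw [hu]
  rfl

lemma lift_cop [IsPrincipalIdealRing (𝓞 K)] (c : 𝓞 K) (d : 𝓞 K) (hd : d ≠ 0) :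
    ∀ α : 𝓞 K, IsCoprime α c → ∃ α' : 𝓞 K, c ∣ α' - α ∧ IsCoprime α' (c * d) := by
  classical
  induction d using UniqueFactorizationMonoid.induction_on_prime with
  | h₁ => exact absurd rfl hd
  | h₂ x hx =>
    intro α hα
    exact ⟨α, by simp, IsCoprime.mul_right hα (by
      obtain ⟨y, hy⟩ := hx.exists_left_inv
      exact ⟨0, y, by rw [hy]; ring⟩)⟩
  | h₃ a p ha hp ih =>
    intro α hα
    obtain ⟨β, hβ, hcop⟩ := ih ha α hα
    by_cases hdiv : p ∣ β
    · refine ⟨β + c * a, ?_, ?_⟩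
      · have : β + c * a - α = (β - α) + c * a := by ring
        rw [this]
        exact dvd_add hβ (dvd_mul_right _ _)
      · have h1 : IsCoprime (β + c * a) (c * a) := by
          have := hcop.add_mul_left_left 1
          rwa [mul_one] at this
        have h2 : IsCoprime (β + c * a) p := by
          refine ((hp.irreducible.coprime_iff_not_dvd).2 ?_).symm
          intro hdv
          have h3 : p ∣ c * a := by
            have := dvd_sub hdv hdiv
            rwa [add_sub_cancel_left] at this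
          have h4 : IsCoprime p (c * a) := hcop.of_isCoprime_of_dvd_left hdiv
          have h5 : IsUnit p := h4.isUnit_of_dvd' dvd_rfl h3
          exact hp.not_isUnit h5
        have h6 := h1.mul_right h2
        have : c * (p * a) = c * a * p := by ring
        rw [this]
        exact h6
    · refine ⟨β, hβ, ?_⟩
      have h2 : IsCoprime β p := ((hp.irreducible.coprime_iff_not_dvd).2 hdiv).symm
      have h6 := hcop.mul_right h2
      have : c * (p * a) = c * a * p := by ring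
      rw [this]
      exact h6

lemma red_surj [IsPrincipalIdealRing (𝓞 K)] {c₁ c : 𝓞 K} (h : c₁ ∣ c) (hc : c ≠ 0) :
    Function.Surjective (red h) := by
  intro u
  obtain ⟨α, hα⟩ := Ideal.Quotient.mk_surjective (u : 𝓞 K ⧸ Ideal.span {c₁})
  have h1 : IsCoprime α c₁ := (unitN_iff α).1 (by rw [hα]; exact u.isUnit)
  obtain ⟨d, rfl⟩ := h
  have hd : d ≠ 0 := right_ne_zero_of_mul hc
  obtain ⟨α', h2, h3⟩ := lift_cop c₁ d hd α h1
  obtain ⟨w, hw⟩ := (unitN_iff α').2 h3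
  refine ⟨w, Units.ext ?_⟩
  rw [red_mk _ hw, ← hα, Ideal.Quotient.mk_eq_mk_iff_sub_mem, Ideal.mem_span_singleton]
  exact h2

/-- the classes of the prime elements that are prime to `d` generate the group of the units modulo
`c` -/
lemma closure_prime [IsPrincipalIdealRing (𝓞 K)] {c d : 𝓞 K} (hd : d ≠ 0)
    (hex : ∃ π : 𝓞 K, Prime π ∧ IsCoprime π (c * d)) :
    Subgroup.closure {u : (𝓞 K ⧸ Ideal.span {c})ˣ | ∃ π : 𝓞 K, Prime π ∧ IsCoprime π d ∧
      (u : 𝓞 K ⧸ Ideal.span {c}) = Ideal.Quotient.mk _ π} = ⊤ := by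
  classical
  set S := {u : (𝓞 K ⧸ Ideal.span {c})ˣ | ∃ π : 𝓞 K, Prime π ∧ IsCoprime π d ∧
      (u : 𝓞 K ⧸ Ideal.span {c}) = Ideal.Quotient.mk _ π} with hS
  rw [eq_top_iff]
  intro u _
  obtain ⟨α₀, hα₀⟩ := Ideal.Quotient.mk_surjective (u : 𝓞 K ⧸ Ideal.span {c})
  obtain ⟨α, hα1, hα2⟩ := lift_cop c d hd α₀ ((unitN_iff _).1 (by rw [hα₀]; exact u.isUnit))
  have hα : (u : 𝓞 K ⧸ Ideal.span {c}) = Ideal.Quotient.mk _ α := by
    rw [← hα₀, eq_comm, Ideal.Quotient.mk_eq_mk_iff_sub_mem, Ideal.mem_span_singleton]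
    exact hα1
  have key : ∀ α : 𝓞 K, IsCoprime α (c * d) → ∀ u : (𝓞 K ⧸ Ideal.span {c})ˣ,
      (u : 𝓞 K ⧸ Ideal.span {c}) = Ideal.Quotient.mk _ α → u ∈ Subgroup.closure S := by
    intro α
    induction α using UniqueFactorizationMonoid.induction_on_prime with
    | h₁ =>
      intro _ u hu
      rw [map_zero] at hu
      have h0 : (0 : 𝓞 K ⧸ Ideal.span {c}) = 1 := by
        have h1 := u.isUnit
        rw [hu] at h1
        exact (isUnit_zero_iff.1 h1)
      have : u = 1 := Units.ext (by rw [hu, h0]; rfl)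
      rw [this]
      exact one_mem _
    | h₂ x hx =>
      intro _ u hu
      obtain ⟨π, hπ, hπc⟩ := hex
      obtain ⟨u₂, hu₂⟩ := (unitN_iff (c := c) π).2 hπc.of_mul_right_left
      have hw2 : Prime (x * π) := by
        rw [← Ideal.span_singleton_prime (mul_ne_zero hx.ne_zero hπ.ne_zero),
          Ideal.span_singleton_mul_left_unit hx]
        exact (Ideal.span_singleton_prime hπ.ne_zero).2 hπ
      have h1 : u₂ ∈ Subgroup.closure S :=
        Subgroup.subset_closure ⟨π, hπ, hπc.of_mul_right_right, hu₂⟩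
      have hxd : IsCoprime x d := by
        obtain ⟨y, hy⟩ := hx.exists_left_inv
        exact ⟨y, 0, by rw [hy]; ring⟩
      have h2 : u * u₂ ∈ Subgroup.closure S := Subgroup.subset_closure ⟨x * π, hw2,
        hxd.mul_left hπc.of_mul_right_right, by rw [Units.val_mul, hu, hu₂, map_mul]⟩
      have := mul_mem h2 (inv_mem h1)
      rwa [mul_inv_cancel_right] at this
    | h₃ a p ha hp ih =>
      intro hcd u hu
      have hcop : IsCoprime (p * a) c := (unitN_iff _).1 (by rw [← hu]; exact u.isUnit)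
      obtain ⟨u₁, hu₁⟩ := (unitN_iff (c := c) p).2 hcop.of_mul_left_left
      obtain ⟨u₂, hu₂⟩ := (unitN_iff (c := c) a).2 hcop.of_mul_left_right
      have h1 : u = u₁ * u₂ := Units.ext (by rw [hu, map_mul, Units.val_mul, hu₁, hu₂])
      rw [h1]
      exact mul_mem (Subgroup.subset_closure ⟨p, hp, hcd.of_mul_left_left.of_mul_right_right, hu₁⟩)
        (ih hcd.of_mul_left_right u₂ hu₂)
  exact key α hα2 u hα

end units

section comp
variable {K B : Type} [Field K] [NumberField K] [Field B] [NumberField B] [Algebra K B]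
  [IsGalois K B]

/-- `g` is congruent to the `N`-th power at `w` -/
def Frb {K B : Type} [Field K] [Field B] [Algebra K B] (N : ℕ) (w : HeightOneSpectrum (𝓞 B))
    (g : Gal(B/K)) : Prop :=
  ∀ x : 𝓞 B, g • x - x ^ N ∈ w.asIdeal

lemma restr_alg (E : IntermediateField K B) [IsGalois K E] (g : Gal(B/K)) (x : 𝓞 E) :
    algebraMap (𝓞 E) (𝓞 B) (AlgEquiv.restrictNormalHom E g • x) = g • algebraMap (𝓞 E) (𝓞 B) x := by
  apply RingOfIntegers.ext
  exact AlgEquiv.restrictNormal_commutes g E (x : E)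

lemma frb_restr (E : IntermediateField K B) [IsGalois K E] {N : ℕ} {w : HeightOneSpectrum (𝓞 B)}
    {g : Gal(B/K)} (h : Frb N w g) : Frb N (und (F := E) w) (AlgEquiv.restrictNormalHom E g) := by
  intro x
  rw [mem_under_of_lies (und_lies (F := E) w), map_sub, map_pow, restr_alg]
  exact h _

lemma frb_unique {N : ℕ} {w : HeightOneSpectrum (𝓞 B)} (hu : Algebra.IsUnramifiedAt (𝓞 K) w.asIdeal)
    {g g' : Gal(B/K)} (h : Frb N w g) (h' : Frb N w g') : g = g' := by
  have h1 : g * g'⁻¹ = 1 := by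
    apply unr_g w hu
    intro x
    have h4 := w.asIdeal.sub_mem (h (g'⁻¹ • x)) (h' (g'⁻¹ • x))
    rw [sub_sub_sub_cancel_right, smul_inv_smul, ← mul_smul] at h4
    exact h4
  exact mul_inv_eq_one.1 h1

lemma frb_exists (w : HeightOneSpectrum (𝓞 B)) :
    ∃ g : Gal(B/K), Frb (Nat.card (𝓞 K ⧸ w.asIdeal.under (𝓞 K))) w g := by
  have : Finite (𝓞 B ⧸ w.asIdeal) := Ideal.finiteQuotientOfFreeOfNeBot w.asIdeal w.ne_bot
  obtain ⟨σ, hσ⟩ := IsArithFrobAt.exists_of_isInvariant (𝓞 K) Gal(B/K) w.asIdeal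
  exact ⟨σ, fun x => hσ x⟩

lemma under_eq {w : HeightOneSpectrum (𝓞 B)} {π : 𝓞 K} (hπ : Prime π)
    (h : algebraMap (𝓞 K) (𝓞 B) π ∈ w.asIdeal) : w.asIdeal.under (𝓞 K) = Ideal.span {π} := by
  have h1 : (Ideal.span {π} : Ideal (𝓞 K)).IsPrime := (Ideal.span_singleton_prime hπ.ne_zero).2 hπ
  have h2 : (Ideal.span {π} : Ideal (𝓞 K)).IsMaximal := h1.isMaximal (by
    rw [Ne, Ideal.span_singleton_eq_bot]; exact hπ.ne_zero)
  refine (h2.eq_of_le (Ideal.IsPrime.ne_top inferInstance) ?_).symm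
  rw [Ideal.span_singleton_le_iff_mem]
  exact h

/-- the restrictions to two subfields that generate the field -/
lemma restr_inj (L F : IntermediateField K B) [IsGalois K L] [IsGalois K F] (hsup : L ⊔ F = ⊤)
    {g g' : Gal(B/K)} (hL : AlgEquiv.restrictNormalHom L g = AlgEquiv.restrictNormalHom L g')
    (hF : AlgEquiv.restrictNormalHom F g = AlgEquiv.restrictNormalHom F g') : g = g' := by
  have h1 : g * g'⁻¹ ∈ L.fixingSubgroup := by
    rw [← IntermediateField.restrictNormalHom_ker, MonoidHom.mem_ker, map_mul, map_inv, hL,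
      mul_inv_cancel]
  have h2 : g * g'⁻¹ ∈ F.fixingSubgroup := by
    rw [← IntermediateField.restrictNormalHom_ker, MonoidHom.mem_ker, map_mul, map_inv, hF,
      mul_inv_cancel]
  have h3 : g * g'⁻¹ ∈ (L ⊔ F).fixingSubgroup := by
    rw [IntermediateField.fixingSubgroup_sup]
    exact ⟨h1, h2⟩
  rw [hsup, IntermediateField.fixingSubgroup_top] at h3
  exact mul_inv_eq_one.1 ((Subgroup.mem_bot).1 h3)

lemma not_mem_of_cop {w : HeightOneSpectrum (𝓞 B)} {π c : 𝓞 K} (hcop : IsCoprime π c)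
    (h : algebraMap (𝓞 K) (𝓞 B) π ∈ w.asIdeal) : algebraMap (𝓞 K) (𝓞 B) c ∉ w.asIdeal := by
  intro h'
  obtain ⟨a, b, hab⟩ := hcop
  apply w.isPrime.ne_top
  rw [Ideal.eq_top_iff_one, ← map_one (algebraMap (𝓞 K) (𝓞 B)), ← hab, map_add, map_mul, map_mul]
  exact w.asIdeal.add_mem (w.asIdeal.mul_mem_left _ h) (w.asIdeal.mul_mem_left _ h')

/-- the Artin map and the Frobenius elements of a subfield -/
lemma art_frb (E : IntermediateField K B) [IsGalois K E] {c₁ c : 𝓞 K} (h : c₁ ∣ c)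
    {art : (𝓞 K ⧸ Ideal.span {c₁})ˣ →* Gal(E/K)} (ha : IsArtin c₁ art) {π : 𝓞 K} (hπ : Prime π)
    {u : (𝓞 K ⧸ Ideal.span {c})ˣ} (hu : (u : 𝓞 K ⧸ Ideal.span {c}) = Ideal.Quotient.mk _ π)
    {w : HeightOneSpectrum (𝓞 B)} (hw : algebraMap (𝓞 K) (𝓞 B) π ∈ w.asIdeal) {g : Gal(B/K)}
    (hg : Frb (Nat.card (𝓞 K ⧸ Ideal.span {π})) w g) :
    AlgEquiv.restrictNormalHom E g = art (red h u) := by
  have hcop : IsCoprime π c := (unitN_iff _).1 (by rw [← hu]; exact u.isUnit)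
  have hcop1 : IsCoprime π c₁ := hcop.of_isCoprime_of_dvd_right h
  have hwE : algebraMap (𝓞 K) (𝓞 E) π ∈ (und (F := E) w).asIdeal := by
    rw [mem_under_of_lies (und_lies (F := E) w), ← IsScalarTower.algebraMap_apply]
    exact hw
  refine frb_unique (ha.unr _ (not_mem_of_cop hcop1 hwE)) (frb_restr E hg) ?_
  exact ha.frob π hπ (red h u) (red_mk h hu) _ hwE

theorem comp_exists [IsPrincipalIdealRing (𝓞 K)] [IsCyclotomicExtension {3} ℚ K]
    (L F : IntermediateField K B) [IsGalois K L] [IsGalois K F]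
    (hsup : L ⊔ F = ⊤) {c₁ c₂ c : 𝓞 K} (h₁ : c₁ ∣ c) (h₂ : c₂ ∣ c)
    (hex : ∃ π : 𝓞 K, Prime π ∧ IsCoprime π c)
    {art₁ : (𝓞 K ⧸ Ideal.span {c₁})ˣ →* Gal(L/K)} (ha₁ : IsArtin c₁ art₁)
    {art₂ : (𝓞 K ⧸ Ideal.span {c₂})ˣ →* Gal(F/K)} (ha₂ : IsArtin c₂ art₂) :
    ∃ art : (𝓞 K ⧸ Ideal.span {c})ˣ →* Gal(B/K),
      (∀ u, AlgEquiv.restrictNormalHom L (art u) = art₁ (red h₁ u)) ∧
      (∀ u, AlgEquiv.restrictNormalHom F (art u) = art₂ (red h₂ u)) ∧
      (∀ v : HeightOneSpectrum (𝓞 B), algebraMap (𝓞 K) (𝓞 B) c ∉ v.asIdeal →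
        Algebra.IsUnramifiedAt (𝓞 K) v.asIdeal) ∧
      (∀ π : 𝓞 K, Prime π → ∀ u : (𝓞 K ⧸ Ideal.span {c})ˣ,
        (u : 𝓞 K ⧸ Ideal.span {c}) = Ideal.Quotient.mk _ π →
        ∀ v : HeightOneSpectrum (𝓞 B), algebraMap (𝓞 K) (𝓞 B) π ∈ v.asIdeal →
          ∀ x : 𝓞 B, art u • x - x ^ Nat.card (𝓞 K ⧸ Ideal.span {π}) ∈ v.asIdeal) := by
  classical
  -- the two homomorphisms
  let R : Gal(B/K) →* Gal(L/K) × Gal(F/K) :=
    (AlgEquiv.restrictNormalHom L).prod (AlgEquiv.restrictNormalHom F)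
  let A : (𝓞 K ⧸ Ideal.span {c})ˣ →* Gal(L/K) × Gal(F/K) :=
    (art₁.comp (red h₁)).prod (art₂.comp (red h₂))
  have hR : Function.Injective R := by
    intro g g' h
    exact restr_inj L F hsup (congrArg Prod.fst h) (congrArg Prod.snd h)
  have hfrb : ∀ π : 𝓞 K, Prime π → ∀ u : (𝓞 K ⧸ Ideal.span {c})ˣ,
      (u : 𝓞 K ⧸ Ideal.span {c}) = Ideal.Quotient.mk _ π →
      ∀ v : HeightOneSpectrum (𝓞 B), algebraMap (𝓞 K) (𝓞 B) π ∈ v.asIdeal →
        ∀ g : Gal(B/K), Frb (Nat.card (𝓞 K ⧸ Ideal.span {π})) v g → R g = A u := by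
    intro π hπ u hu v hv g hg
    exact Prod.ext (art_frb L h₁ ha₁ hπ hu hv hg) (art_frb F h₂ ha₂ hπ hu hv hg)
  have hfex : ∀ π : 𝓞 K, Prime π → ∀ v : HeightOneSpectrum (𝓞 B),
      algebraMap (𝓞 K) (𝓞 B) π ∈ v.asIdeal →
      ∃ g : Gal(B/K), Frb (Nat.card (𝓞 K ⧸ Ideal.span {π})) v g := by
    intro π hπ v hv
    obtain ⟨g, hg⟩ := frb_exists (K := K) v
    rw [under_eq hπ hv] at hg
    exact ⟨g, hg⟩
  have hrange : ∀ u, A u ∈ R.range := by
    have h1 : (⊤ : Subgroup (𝓞 K ⧸ Ideal.span {c})ˣ) ≤ R.range.comap A := by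
      rw [← closure_prime (d := 1) one_ne_zero (by rw [mul_one]; exact hex), Subgroup.closure_le]
      rintro u ⟨π, hπ, -, hu⟩
      let P : HeightOneSpectrum (𝓞 K) := ⟨Ideal.span {π},
        (Ideal.span_singleton_prime hπ.ne_zero).2 hπ, by
        rw [Ne, Ideal.span_singleton_eq_bot]; exact hπ.ne_zero⟩
      obtain ⟨v, hlo⟩ := exists_above (F := K) (K := B) P
      have hv : algebraMap (𝓞 K) (𝓞 B) π ∈ v.asIdeal := by
        rw [← mem_under_of_lies hlo]
        exact Ideal.mem_span_singleton_self π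
      obtain ⟨g, hg⟩ := hfex π hπ v hv
      exact ⟨g, hfrb π hπ u hu v hv g hg⟩
    intro u
    exact h1 (Subgroup.mem_top u)
  let e : Gal(B/K) ≃* R.range := MonoidHom.ofInjective hR
  let art : (𝓞 K ⧸ Ideal.span {c})ˣ →* Gal(B/K) :=
    (e.symm : R.range →* Gal(B/K)).comp (A.codRestrict R.range hrange)
  have hart : ∀ u, R (art u) = A u := by
    intro u
    have h1 : e (art u) = A.codRestrict R.range hrange u := e.apply_symm_apply _
    exact congrArg Subtype.val h1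
  refine ⟨art, fun u => congrArg Prod.fst (hart u), fun u => congrArg Prod.snd (hart u), ?_, ?_⟩
  · intro v hv
    apply unr_of_inertia
    intro g hg
    have hg1 : Frb 1 v g := fun x => by rw [pow_one]; exact hg x
    have hone : ∀ E : IntermediateField K B, ∀ [IsGalois K E], ∀ {c' : 𝓞 K}, c' ∣ c →
        (∀ v : HeightOneSpectrum (𝓞 E), algebraMap (𝓞 K) (𝓞 E) c' ∉ v.asIdeal →
          Algebra.IsUnramifiedAt (𝓞 K) v.asIdeal) → AlgEquiv.restrictNormalHom E g = 1 := by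
      intro E _ c' hc' hun
      have hcE : algebraMap (𝓞 K) (𝓞 E) c' ∉ (und (F := E) v).asIdeal := by
        rw [mem_under_of_lies (und_lies (F := E) v), ← IsScalarTower.algebraMap_apply]
        intro hmem
        apply hv
        obtain ⟨t, rfl⟩ := hc'
        rw [map_mul]
        exact v.asIdeal.mul_mem_right _ hmem
      refine unr_g (und (F := E) v) (hun _ hcE) fun x => ?_
      have := frb_restr E hg1 x
      rwa [pow_one] at this
    apply hR
    rw [map_one]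
    exact Prod.ext (hone L h₁ ha₁.unr) (hone F h₂ ha₂.unr)
  · intro π hπ u hu v hv x
    obtain ⟨g, hg⟩ := hfex π hπ v hv
    have h1 : g = art u := hR ((hfrb π hπ u hu v hv g hg).trans (hart u).symm)
    rw [← h1]
    exact hg x

end comp

end Pool.Agent.W2helper8.TQE7
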