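import Mathlib
import Pool.Agent.W2helper8.TQ.E7a

/-!
# Piece E7 of project TQ, second part: complex conjugation, roots of unity and cube roots
-/

set_option autoImplicit false
set_option linter.unusedSectionVars false

namespace Pool.Agent.W2helper8.TQE7

open NumberField IsDedekindDomain
open Pool.Agent.W2helper24.TQ
open Pool.Agent.Y696 (und und_lies mem_under_of_lies exists_above unr_g IsArtin int_rep)
open Pool.Agent.W2helper89.TQE2

section tau
variable {K : Type} [Field K] [NumberField K] [IsCyclotomicExtension {3} ℚ K]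

/-- the conjugation of the ring of integers -/
lemma exists_conj (K : Type) [Field K] [NumberField K] [IsCyclotomicExtension {3} ℚ K] :
    ∃ (T : 𝓞 K ≃+* 𝓞 K), (∀ x, T (T x) = x) ∧ ∀ z : 𝓞 K, z ^ 3 = 1 → T z = z ^ 2 := by
  have hw := IsCyclotomicExtension.zeta_spec 3 ℚ K
  set w := IsCyclotomicExtension.zeta 3 ℚ K with hwdef
  have hw2 : IsPrimitiveRoot (w ^ 2) 3 := hw.pow_of_coprime 2 (by norm_num)
  have hirr : Irreducible (Polynomial.cyclotomic 3 ℚ) :=
    Polynomial.cyclotomic.irreducible_rat (by norm_num)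
  let τ : K ≃ₐ[ℚ] K := IsCyclotomicExtension.fromZetaAut hw2 hirr
  have hτ : τ w = w ^ 2 := IsCyclotomicExtension.fromZetaAut_spec hw2 hirr
  let T : 𝓞 K ≃+* 𝓞 K := RingOfIntegers.mapRingEquiv (τ : K ≃+* K)
  have hTw : T hw.toInteger = hw.toInteger ^ 2 := by
    apply RingOfIntegers.ext
    exact hτ
  have hw3 : hw.toInteger ^ 3 = 1 := hw.toInteger_isPrimitiveRoot.pow_eq_one
  have hw4 : T (hw.toInteger ^ 2) = hw.toInteger := by
    rw [map_pow, hTw]
    linear_combination (hw.toInteger) * hw3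
  refine ⟨T, ?_, ?_⟩
  · intro x
    obtain ⟨a, b, rfl⟩ := int_rep hw x
    rw [map_add, map_mul, map_intCast, map_intCast, hTw, map_add, map_mul, map_intCast,
      map_intCast, hw4]
  · intro z hz
    have h1 : ((z : K)) ^ 3 = 1 := by exact_mod_cast congrArg (fun t : 𝓞 K => (t : K)) hz
    have h2 := cube_one (F := K) hw h1
    rw [Algebra.algebraMap_self, RingHom.id_apply] at h2
    rcases h2 with h | h | h
    · have : z = 1 := RingOfIntegers.ext h
      rw [this, map_one, one_pow]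
    · have : z = hw.toInteger := RingOfIntegers.ext h
      rw [this, hTw]
    · have : z = hw.toInteger ^ 2 := RingOfIntegers.ext h
      rw [this, hw4]
      linear_combination (-hw.toInteger) * hw3

lemma card_conj (T : 𝓞 K ≃+* 𝓞 K) (π : 𝓞 K) :
    Nat.card (𝓞 K ⧸ Ideal.span {T π}) = Nat.card (𝓞 K ⧸ Ideal.span {π}) := by
  refine (Nat.card_congr (Ideal.quotientEquiv _ _ T ?_).toEquiv).symm
  rw [Ideal.map_span, Set.image_singleton]
  rfl

/-- the conjugation of the units modulo `c` -/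
noncomputable def cu (T : 𝓞 K ≃+* 𝓞 K) {c : 𝓞 K} (hc : T c = c) :
    (𝓞 K ⧸ Ideal.span {c})ˣ →* (𝓞 K ⧸ Ideal.span {c})ˣ :=
  Units.map ((Ideal.quotientEquiv (Ideal.span {c}) (Ideal.span {c}) T (by
    rw [Ideal.map_span, Set.image_singleton]
    congr 2
    exact hc.symm) : (𝓞 K ⧸ Ideal.span {c}) ≃+* (𝓞 K ⧸ Ideal.span {c})) :
      (𝓞 K ⧸ Ideal.span {c}) →* (𝓞 K ⧸ Ideal.span {c}))

lemma cu_mk (T : 𝓞 K ≃+* 𝓞 K) {c : 𝓞 K} (hc : T c = c) {u : (𝓞 K ⧸ Ideal.span {c})ˣ} {α : 𝓞 K}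
    (hu : (u : 𝓞 K ⧸ Ideal.span {c}) = Ideal.Quotient.mk _ α) :
    ((cu T hc u : (𝓞 K ⧸ Ideal.span {c})ˣ) : 𝓞 K ⧸ Ideal.span {c}) =
      Ideal.Quotient.mk _ (T α) := by
  change (Ideal.quotientEquiv (Ideal.span {c}) (Ideal.span {c}) T _)
    (u : 𝓞 K ⧸ Ideal.span {c}) = _
  rw [hu]
  rfl

end tau

section cyc
variable {K L : Type} [Field K] [NumberField K] [Field L] [NumberField L] [Algebra K L]
  [IsGalois K L]

/-- a prime above a prime element -/
lemma exists_ab {π : 𝓞 K} (hπ : Prime π) : ∃ v : HeightOneSpectrum (𝓞 L),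
    algebraMap (𝓞 K) (𝓞 L) π ∈ v.asIdeal := by
  let P : HeightOneSpectrum (𝓞 K) := ⟨Ideal.span {π},
    (Ideal.span_singleton_prime hπ.ne_zero).2 hπ, by
    rw [Ne, Ideal.span_singleton_eq_bot]; exact hπ.ne_zero⟩
  obtain ⟨v, hlo⟩ := exists_above (F := K) (K := L) P
  refine ⟨v, ?_⟩
  rw [← mem_under_of_lies hlo]
  exact Ideal.mem_span_singleton_self π

lemma art_cyc {m : ℕ} {c : 𝓞 K} {art : (𝓞 K ⧸ Ideal.span {c})ˣ →* Gal(L/K)}
    (ha : IsArtin c art) {π : 𝓞 K} (hπ : Prime π) {u : (𝓞 K ⧸ Ideal.span {c})ˣ}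
    (hu : (u : 𝓞 K ⧸ Ideal.span {c}) = Ideal.Quotient.mk _ π)
    (hm : IsCoprime π (m : 𝓞 K)) {z : L} (hm0 : m ≠ 0) (hz : z ^ m = 1) :
    art u z = z ^ Nat.card (𝓞 K ⧸ Ideal.span {π}) := by
  obtain ⟨v, hv⟩ := exists_ab (L := L) hπ
  have hint : IsIntegral ℤ z := by
    refine IsIntegral.of_pow (n := m) (Nat.pos_of_ne_zero hm0) ?_
    rw [hz]
    exact isIntegral_one
  let x : 𝓞 L := ⟨z, hint⟩
  have hx : x ^ m = 1 := by
    apply RingOfIntegers.ext
    exact hz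
  have hfr : (MulSemiringAction.toAlgHom (𝓞 K) (𝓞 L) (art u)).IsArithFrobAt v.asIdeal := by
    intro y
    rw [under_eq hπ hv]
    exact ha.frob π hπ u hu v hv y
  have hmv : ((m : ℕ) : 𝓞 L) ∉ v.asIdeal := by
    have := not_mem_of_cop hm hv
    rwa [map_natCast] at this
  have h1 := hfr.apply_of_pow_eq_one hx hmv
  rw [under_eq hπ hv] at h1
  exact congrArg (fun t : 𝓞 L => (t : L)) h1

/-- the residue fields of the primes that do not divide `3` contain the cube roots of unity -/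
lemma card_mod_three [IsCyclotomicExtension {3} ℚ K] {π : 𝓞 K} (hπ : Prime π)
    (h3 : IsCoprime π (3 : 𝓞 K)) :
    ∃ k : ℕ, Nat.card (𝓞 K ⧸ Ideal.span {π}) = 3 * k + 1 := by
  obtain ⟨w, hw⟩ := exists_om K
  have hrel : hw.toInteger ^ 2 + hw.toInteger + 1 = 0 := by
    have h3 : hw.toInteger ^ 3 = 1 := hw.toInteger_isPrimitiveRoot.pow_eq_one
    have h4 : hw.toInteger ≠ 1 := hw.toInteger_isPrimitiveRoot.ne_one (by norm_num)
    have h5 : (hw.toInteger - 1) * (hw.toInteger ^ 2 + hw.toInteger + 1) = 0 := by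
      linear_combination h3
    exact (mul_eq_zero.1 h5).resolve_left (sub_ne_zero.2 h4)
  set a := hw.toInteger with ha
  have hI : (Ideal.span {π} : Ideal (𝓞 K)).IsPrime := (Ideal.span_singleton_prime hπ.ne_zero).2 hπ
  have hI0 : (Ideal.span {π} : Ideal (𝓞 K)) ≠ ⊥ := by
    rw [Ne, Ideal.span_singleton_eq_bot]; exact hπ.ne_zero
  have hmax : (Ideal.span {π} : Ideal (𝓞 K)).IsMaximal := hI.isMaximal hI0
  have hfin : Finite (𝓞 K ⧸ Ideal.span {π}) := Ideal.finiteQuotientOfFreeOfNeBot _ hI0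
  let _ : Field (𝓞 K ⧸ Ideal.span {π}) := Ideal.Quotient.field _
  have h1 : (Ideal.Quotient.mk (Ideal.span {π}) a) ^ 3 = 1 := by
    rw [← map_pow, ← map_one (Ideal.Quotient.mk (Ideal.span {π}))]
    congr 1
    linear_combination (a - 1) * hrel
  have h2 : (Ideal.Quotient.mk (Ideal.span {π}) a) ≠ 1 := by
    intro h
    rw [← map_one (Ideal.Quotient.mk (Ideal.span {π})), Ideal.Quotient.mk_eq_mk_iff_sub_mem,
      Ideal.mem_span_singleton] at h
    have h5 : π ∣ 3 := by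
      have : (3 : 𝓞 K) = (a - 1) * (-(a + 2)) := by linear_combination hrel
      rw [this]
      exact h.mul_right _
    exact hπ.not_isUnit (h3.isUnit_of_dvd' dvd_rfl h5)
  have h0 : (Ideal.Quotient.mk (Ideal.span {π}) a) ≠ 0 := by
    intro h
    rw [h] at h1
    norm_num at h1
  let U : (𝓞 K ⧸ Ideal.span {π})ˣ := Units.mk0 _ h0
  have hU : orderOf U = 3 := by
    have : Fact (Nat.Prime 3) := ⟨Nat.prime_three⟩
    refine orderOf_eq_prime (Units.ext ?_) ?_
    · exact h1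
    · intro h
      exact h2 (congrArg Units.val h)
  have hd : 3 ∣ Nat.card (𝓞 K ⧸ Ideal.span {π})ˣ := by
    rw [← hU]
    exact orderOf_dvd_natCard U
  rw [Nat.card_units] at hd
  obtain ⟨k, hk⟩ := hd
  refine ⟨k, ?_⟩
  have hpos : 0 < Nat.card (𝓞 K ⧸ Ideal.span {π}) := Nat.card_pos
  omega

lemma art_cube [IsCyclotomicExtension {3} ℚ K] {c : 𝓞 K}
    {art : (𝓞 K ⧸ Ideal.span {c})ˣ →* Gal(L/K)} (ha : IsArtin c art) {π : 𝓞 K} (hπ : Prime π)
    {u : (𝓞 K ⧸ Ideal.span {c})ˣ} (hu : (u : 𝓞 K ⧸ Ideal.span {c}) = Ideal.Quotient.mk _ π)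
    {D : ℕ} (hD : D ≠ 0) (hπD : IsCoprime π (D : 𝓞 K)) {k : ℕ}
    (hk : Nat.card (𝓞 K ⧸ Ideal.span {π}) = 3 * k + 1) {s : L} (hs : s ^ 3 = (D : L)) :
    ∃ z : 𝓞 K, z ^ 3 = 1 ∧ art u s = algebraMap K L z * s ∧ π ∣ z - (D : 𝓞 K) ^ k := by
  obtain ⟨v, hv⟩ := exists_ab (L := L) hπ
  have hint : IsIntegral ℤ s := by
    refine IsIntegral.of_pow (n := 3) (by norm_num) ?_
    rw [hs]
    exact isIntegral_algebraMap (R := ℤ) (x := (D : ℤ)) |> fun h => by simpa using h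
  let x : 𝓞 L := ⟨s, hint⟩
  have hx3 : x ^ 3 = (D : 𝓞 L) := by
    apply RingOfIntegers.ext
    change s ^ 3 = _
    rw [hs]
    simp
  obtain ⟨w, hw⟩ := exists_om K
  obtain ⟨z, hz3, hz⟩ : ∃ z : 𝓞 K, z ^ 3 = 1 ∧ art u s = algebraMap K L z * s := by
    have hw3 : hw.toInteger ^ 3 = 1 := hw.toInteger_isPrimitiveRoot.pow_eq_one
    rcases g_root hw hD hs (art u) with h | h | h
    · exact ⟨1, one_pow _, by rw [h]; simp⟩
    · exact ⟨hw.toInteger, hw3, h⟩
    · refine ⟨hw.toInteger ^ 2, by rw [← pow_mul, mul_comm, pow_mul, hw3, one_pow], ?_⟩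
      rw [h]
      congr 1
      exact (map_pow _ _ _).symm
  refine ⟨z, hz3, hz, ?_⟩
  have h1 := ha.frob π hπ u hu v hv x
  rw [hk] at h1
  have h2 : art u • x = algebraMap (𝓞 K) (𝓞 L) z * x := by
    apply RingOfIntegers.ext
    exact hz
  have h3 : art u • x - x ^ (3 * k + 1) = algebraMap (𝓞 K) (𝓞 L) (z - (D : 𝓞 K) ^ k) * x := by
    rw [h2, pow_succ, pow_mul, hx3, map_sub, map_pow, map_natCast]
    ring
  rw [h3] at h1
  have hxv : x ∉ v.asIdeal := by
    intro h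
    have h4 := not_mem_of_cop hπD hv
    apply h4
    rw [map_natCast, ← hx3]
    exact Ideal.pow_mem_of_mem _ h 3 (by norm_num)
  have h4 := (v.isPrime.mem_or_mem h1).resolve_right hxv
  have h5 : z - (D : 𝓞 K) ^ k ∈ v.asIdeal.under (𝓞 K) := h4
  rw [under_eq hπ hv, Ideal.mem_span_singleton] at h5
  exact h5

/-- cube roots of unity that are congruent modulo a prime not dividing `3` -/
lemma cube_eq {a b ρ : 𝓞 K} (ha : a ^ 3 = 1) (hb : b ^ 3 = 1) (hρ : Prime ρ)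
    (h3 : IsCoprime ρ (3 : 𝓞 K)) (h : ρ ∣ a - b) : a = b := by
  by_contra hne
  set r := b * a ^ 2 with hr
  have hr3 : r ^ 3 = 1 := by
    rw [hr]
    linear_combination (a ^ 6) * hb + (a ^ 3 + 1) * ha
  have hr1 : r ≠ 1 := by
    intro h1
    apply hne
    have : b * a ^ 3 = a := by
      rw [hr] at h1
      linear_combination a * h1
    rw [ha, mul_one] at this
    exact this.symm
  have h5 : (r - 1) * (r ^ 2 + r + 1) = 0 := by linear_combination hr3
  have h6 := (mul_eq_zero.1 h5).resolve_left (sub_ne_zero.2 hr1)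
  have h7 : ρ ∣ 3 := by
    have : (3 : 𝓞 K) = (a - b) * (a ^ 2 * (r + 2)) := by
      have e : (a - b) * a ^ 2 = 1 - r := by rw [hr]; linear_combination ha
      linear_combination h6 - (r + 2) * e
    rw [this]
    exact h.mul_right _
  exact hρ.not_isUnit (h3.isUnit_of_dvd' dvd_rfl h7)

end cyc

end Pool.Agent.W2helper8.TQE7
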