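import Mathlib
import Pool.Agent.W2helper8.TQ.E7b

/-!
# Piece E7 of project TQ, third part: the Artin map and complex conjugation
-/

set_option autoImplicit false
set_option linter.unusedSectionVars false

namespace Pool.Agent.W2helper8.TQE7

open NumberField IsDedekindDomain
open Pool.Agent.W2helper24.TQ
open Pool.Agent.Y696 (und und_lies mem_under_of_lies exists_above unr_g IsArtin int_rep)
open Pool.Agent.W2helper89.TQE2

section phi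
variable {K L : Type} [Field K] [NumberField K] [IsCyclotomicExtension {3} ℚ K]
  [IsPrincipalIdealRing (𝓞 K)] [Field L] [NumberField L] [Algebra K L] [IsGalois K L]

lemma cop_conj (T : 𝓞 K ≃+* 𝓞 K) {π : 𝓞 K} {n : ℕ} (h : IsCoprime π (n : 𝓞 K)) :
    IsCoprime (T π) (n : 𝓞 K) := by
  have := h.map (T : 𝓞 K →+* 𝓞 K)
  rwa [map_natCast] at this

lemma prime_conj (T : 𝓞 K ≃+* 𝓞 K) {π : 𝓞 K} (h : Prime π) : Prime (T π) :=
  (MulEquiv.prime_iff (T : 𝓞 K ≃* 𝓞 K)).2 h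

lemma phi1 {m : ℕ} [NeZero m] [IsCyclotomicExtension {m} K L] {c : 𝓞 K} (h₁ : (m : 𝓞 K) ∣ c)
    {art : (𝓞 K ⧸ Ideal.span {(m : 𝓞 K)})ˣ →* Gal(L/K)} (ha : IsArtin (m : 𝓞 K) art)
    (T : 𝓞 K ≃+* 𝓞 K) (hTc : T c = c) (hex : ∃ π : 𝓞 K, Prime π ∧ IsCoprime π c)
    (u : (𝓞 K ⧸ Ideal.span {c})ˣ) : art (red h₁ (cu T hTc u)) = art (red h₁ u) := by
  have h1 : (⊤ : Subgroup (𝓞 K ⧸ Ideal.span {c})ˣ) ≤
      (art.comp ((red h₁).comp (cu T hTc))).eqLocus (art.comp (red h₁)) := by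
    rw [← closure_prime (d := 1) one_ne_zero (by rw [mul_one]; exact hex), Subgroup.closure_le]
    rintro u ⟨π, hπ, -, hu⟩
    have hcop : IsCoprime π (m : 𝓞 K) :=
      ((unitN_iff _).1 (by rw [← hu]; exact u.isUnit)).of_isCoprime_of_dvd_right h₁
    have hζ := IsCyclotomicExtension.zeta_spec m K L
    set ζ := IsCyclotomicExtension.zeta m K L
    have e1 : art (red h₁ u) ζ = ζ ^ Nat.card (𝓞 K ⧸ Ideal.span {π}) :=
      art_cyc ha hπ (red_mk h₁ hu) hcop (NeZero.ne m) hζ.pow_eq_one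
    have e2 : art (red h₁ (cu T hTc u)) ζ = ζ ^ Nat.card (𝓞 K ⧸ Ideal.span {π}) := by
      rw [← card_conj T π]
      exact art_cyc ha (prime_conj T hπ) (red_mk h₁ (cu_mk T hTc hu)) (cop_conj T hcop)
        (NeZero.ne m) hζ.pow_eq_one
    have e3 : ((art (red h₁ (cu T hTc u)) : Gal(L/K)) : L →ₐ[K] L) =
        ((art (red h₁ u) : Gal(L/K)) : L →ₐ[K] L) := by
      apply (hζ.powerBasis K).algHom_ext
      rw [IsPrimitiveRoot.powerBasis_gen]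
      exact e2.trans e1.symm
    exact AlgEquiv.coe_toAlgHom_injective e3
  exact h1 (Subgroup.mem_top u)

lemma phi2 {S : Set L} (hS : IntermediateField.adjoin K S = ⊤) {c : 𝓞 K}
    (hx : ∀ s ∈ S, ∃ D : ℕ, D ≠ 0 ∧ (D : 𝓞 K) ∣ c ∧ s ^ 3 = (D : L)) {c₂ : 𝓞 K} (h₂ : c₂ ∣ c)
    {art : (𝓞 K ⧸ Ideal.span {c₂})ˣ →* Gal(L/K)} (ha : IsArtin c₂ art)
    (T : 𝓞 K ≃+* 𝓞 K) (hT3 : ∀ z : 𝓞 K, z ^ 3 = 1 → T z = z ^ 2) (hTc : T c = c)
    (hex : ∃ π : 𝓞 K, Prime π ∧ IsCoprime π (c * 3))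
    (u : (𝓞 K ⧸ Ideal.span {c})ˣ) : art (red h₂ (cu T hTc u)) * art (red h₂ u) = 1 := by
  have h1 : (⊤ : Subgroup (𝓞 K ⧸ Ideal.span {c})ˣ) ≤
      (art.comp ((red h₂).comp (cu T hTc) * red h₂)).ker := by
    rw [← closure_prime (d := 3) (by norm_num) hex, Subgroup.closure_le]
    rintro u ⟨π, hπ, hπ3, hu⟩
    have hcop : IsCoprime π c := (unitN_iff _).1 (by rw [← hu]; exact u.isUnit)
    obtain ⟨k, hk⟩ := card_mod_three hπ hπ3
    have hk' : Nat.card (𝓞 K ⧸ Ideal.span {T π}) = 3 * k + 1 := by rw [card_conj, hk]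
    rw [SetLike.mem_coe, MonoidHom.mem_ker]
    change art (red h₂ (cu T hTc u) * red h₂ u) = 1
    rw [map_mul]
    apply eq_one_of_fix hS
    intro s hs
    obtain ⟨D, hD, hDc, hs3⟩ := hx s hs
    have hπD : IsCoprime π (D : 𝓞 K) := hcop.of_isCoprime_of_dvd_right hDc
    obtain ⟨z, hz3, hz, hz'⟩ := art_cube ha hπ (red_mk h₂ hu) hD hπD hk hs3
    obtain ⟨y, hy3, hy, hy'⟩ := art_cube ha (prime_conj T hπ) (red_mk h₂ (cu_mk T hTc hu)) hD
      (cop_conj T hπD) hk' hs3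
    have hTz : (T z) ^ 3 = 1 := by rw [← map_pow, hz3, map_one]
    have hcopT : IsCoprime (T π) (3 : 𝓞 K) := by
      have := cop_conj (n := 3) T (by exact_mod_cast hπ3)
      exact_mod_cast this
    have hyz : y = T z := by
      refine cube_eq hy3 hTz (prime_conj T hπ) hcopT ?_
      have h5 : T π ∣ T (z - (D : 𝓞 K) ^ k) := map_dvd T hz'
      rw [map_sub, map_pow, map_natCast] at h5
      have := dvd_sub hy' h5
      rwa [sub_sub_sub_cancel_right] at this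
    rw [AlgEquiv.mul_apply, hz, map_mul]
    have h6 : art (red h₂ (cu T hTc u)) (algebraMap K L z) = algebraMap K L z :=
      AlgEquiv.commutes _ _
    rw [h6, hy, hyz, hT3 z hz3, ← mul_assoc, ← map_mul]
    have h7 : ((z : K) * ((z ^ 2 : 𝓞 K) : K)) = 1 := by
      have : z * z ^ 2 = 1 := by rw [← hz3]; ring
      exact_mod_cast congrArg (fun t : 𝓞 K => (t : K)) this
    rw [h7, map_one, one_mul]
  have h2 := h1 (Subgroup.mem_top u)
  rw [MonoidHom.mem_ker] at h2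
  change art (red h₂ (cu T hTc u) * red h₂ u) = 1 at h2
  rwa [map_mul] at h2

lemma gal_cube {S : Set L} (hS : IntermediateField.adjoin K S = ⊤)
    (hx : ∀ s ∈ S, ∃ D : ℕ, D ≠ 0 ∧ s ^ 3 = (D : L)) (g : Gal(L/K)) : g ^ 3 = 1 := by
  obtain ⟨w, hw⟩ := exists_om K
  apply eq_one_of_fix hS
  intro s hs
  obtain ⟨D, hD, hs3⟩ := hx s hs
  have hw3 : algebraMap K L w ^ 3 = 1 := by rw [← map_pow, hw.pow_eq_one, map_one]
  have e : (g ^ 3) s = g (g (g s)) := by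
    rw [pow_succ, pow_two]
    rfl
  rw [e]
  rcases g_root hw hD hs3 g with h1 | h1 | h1
  · rw [h1, h1, h1]
  · rw [h1, map_mul, AlgEquiv.commutes, h1, map_mul, map_mul, AlgEquiv.commutes, h1]
    linear_combination s * hw3
  · rw [h1, map_mul, map_pow, AlgEquiv.commutes, h1, map_mul, map_mul, map_pow,
      AlgEquiv.commutes, h1]
    linear_combination s * (algebraMap K L w ^ 3 + 1) * hw3

/-- the surjectivity -/
lemma surj_comp {B : Type} [Field B] [NumberField B] [Algebra K B] [IsGalois K B]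
    (L F : IntermediateField K B) [IsGalois K L] [IsGalois K F] (hsup : L ⊔ F = ⊤)
    {m : ℕ} [NeZero m] [IsCyclotomicExtension {m} K L] {c₂ c : 𝓞 K} (h₁ : (m : 𝓞 K) ∣ c)
    (h₂ : c₂ ∣ c) (hc : c ≠ 0)
    {art₁ : (𝓞 K ⧸ Ideal.span {(m : 𝓞 K)})ˣ →* Gal(L/K)} (ha₁ : IsArtin (m : 𝓞 K) art₁)
    {art₂ : (𝓞 K ⧸ Ideal.span {c₂})ˣ →* Gal(F/K)} (ha₂ : IsArtin c₂ art₂)
    {S : Set F} (hS : IntermediateField.adjoin K S = ⊤)
    (hx : ∀ s ∈ S, ∃ D : ℕ, D ≠ 0 ∧ (D : 𝓞 K) ∣ c ∧ s ^ 3 = (D : F))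
    (T : 𝓞 K ≃+* 𝓞 K) (hT3 : ∀ z : 𝓞 K, z ^ 3 = 1 → T z = z ^ 2) (hTc : T c = c)
    (hex : ∃ π : 𝓞 K, Prime π ∧ IsCoprime π (c * 3))
    {art : (𝓞 K ⧸ Ideal.span {c})ˣ →* Gal(B/K)}
    (hL : ∀ u, AlgEquiv.restrictNormalHom L (art u) = art₁ (red h₁ u))
    (hF : ∀ u, AlgEquiv.restrictNormalHom F (art u) = art₂ (red h₂ u)) :
    Function.Surjective art := by
  intro g
  have hex' : ∃ π : 𝓞 K, Prime π ∧ IsCoprime π c := by
    obtain ⟨π, hπ, h⟩ := hex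
    exact ⟨π, hπ, h.of_mul_right_left⟩
  obtain ⟨x₁, hx₁⟩ := ha₁.surj (AlgEquiv.restrictNormalHom L g)
  obtain ⟨u₁, rfl⟩ := red_surj h₁ hc x₁
  set b : Gal(F/K) := AlgEquiv.restrictNormalHom F g * (art₂ (red h₂ u₁))⁻¹ with hb
  obtain ⟨x₂, hx₂⟩ := ha₂.surj (b ^ 2)
  obtain ⟨u, rfl⟩ := red_surj h₂ hc x₂
  have p1 := phi1 (L := L) h₁ ha₁ T hTc hex' u
  have p2 := phi2 (L := F) hS hx h₂ ha₂ T hT3 hTc hex u
  have hb3 : b ^ 3 = 1 := gal_cube hS (fun s hs => by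
    obtain ⟨D, hD, -, h⟩ := hx s hs
    exact ⟨D, hD, h⟩) b
  refine ⟨u * (cu T hTc u)⁻¹ * u₁, ?_⟩
  apply restr_inj L F hsup
  · rw [hL]
    simp only [map_mul, map_inv]
    rw [p1, mul_inv_cancel, one_mul, hx₁]
  · rw [hF]
    simp only [map_mul, map_inv]
    rw [inv_eq_of_mul_eq_one_right p2, hx₂]
    have e : b ^ 2 * b ^ 2 = b := by
      calc b ^ 2 * b ^ 2 = b ^ 3 * b := by rw [← pow_add, ← pow_succ]
        _ = b := by rw [hb3, one_mul]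
    rw [e, hb]
    group

end phi

end Pool.Agent.W2helper8.TQE7
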