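import Mathlib
import Pool.Agent.W2helper8.TQ.E7c

/-!
# Piece E7 of project TQ: the Artin map of a field that is generated by roots of unity and cube roots
-/

set_option autoImplicit false
set_option linter.unusedSectionVars false

namespace Pool.Agent.W2helper8.TQE7

open NumberField IsDedekindDomain
open Pool.Agent.W2helper24.TQ
open Pool.Agent.Y696 (und und_lies mem_under_of_lies exists_above unr_g IsArtin int_rep)
open Pool.Agent.W2helper89.TQE2

section good
variable {K : Type} [Field K] [NumberField K]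

lemma good_mul {a b : 𝓞 K} (ha : GoodC a) (hb : GoodC b) : GoodC (a * b) := by
  refine ⟨mul_ne_zero ha.1 hb.1, ha.2.1.mul_left hb.2.1, fun v hv x hx => ?_⟩
  rcases v.isPrime.mem_or_mem hv with h | h
  · exact ha.2.2 v h x hx
  · exact hb.2.2 v h x hx

lemma good_conj (T : 𝓞 K ≃+* 𝓞 K) {a : 𝓞 K} (ha : GoodC a) : GoodC (T a) := by
  refine ⟨(map_ne_zero_iff _ T.injective).2 ha.1, ?_, fun v hv x hx => ?_⟩
  · have := ha.2.1.map (T : 𝓞 K →+* 𝓞 K)
    rwa [map_ofNat] at this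
  · let v' : HeightOneSpectrum (𝓞 K) := ⟨v.asIdeal.comap (T : 𝓞 K →+* 𝓞 K), inferInstance, by
      intro h
      apply v.ne_bot
      rw [eq_bot_iff]
      intro y hy
      have h1 : T.symm y ∈ v.asIdeal.comap (T : 𝓞 K →+* 𝓞 K) := by
        rw [Ideal.mem_comap]
        change T (T.symm y) ∈ v.asIdeal
        rwa [T.apply_symm_apply]
      rw [h, Ideal.mem_bot] at h1
      rw [Ideal.mem_bot, ← T.apply_symm_apply y, h1, map_zero]⟩
    refine ha.2.2 v' hv (T.symm x) ?_
    change T (T.symm x ^ 2 + 1) ∈ v.asIdeal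
    rw [map_add, map_pow, map_one, T.apply_symm_apply]
    exact hx

lemma exists_prime_dvd (v : HeightOneSpectrum (𝓞 K)) : ∀ m : ℕ, m ≠ 0 → (m : 𝓞 K) ∈ v.asIdeal →
    ∃ p : ℕ, p.Prime ∧ p ∣ m ∧ (p : 𝓞 K) ∈ v.asIdeal := by
  intro m
  induction m using Nat.strong_induction_on with
  | _ m ih =>
    intro hm hmw
    by_cases hm1 : m = 1
    · exfalso
      apply v.isPrime.ne_top
      rw [Ideal.eq_top_iff_one]
      rw [hm1, Nat.cast_one] at hmw
      exact hmw
    · obtain ⟨p, hp, k, hk⟩ := Nat.exists_prime_and_dvd hm1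
      rw [hk, Nat.cast_mul] at hmw
      rcases v.isPrime.mem_or_mem hmw with h | h
      · exact ⟨p, hp, ⟨k, hk⟩, h⟩
      · have hk0 : k ≠ 0 := by rintro rfl; simp at hk; exact hm hk
        have hlt : k < m := by
          rw [hk]
          exact lt_mul_of_one_lt_left (Nat.pos_of_ne_zero hk0) hp.one_lt
        obtain ⟨q, h1, h2, h3⟩ := ih k hlt hk0 h
        exact ⟨q, h1, h2.trans ⟨p, by rw [hk]; ring⟩, h3⟩

lemma good_nat [IsCyclotomicExtension {3} ℚ K] {n : ℕ} (hn : n ≠ 0)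
    (h : ∀ p : ℕ, p.Prime → p ∣ n → p % 12 = 7) : GoodC (n : 𝓞 K) := by
  refine ⟨by exact_mod_cast hn, ?_, fun v hv x => ?_⟩
  · have h1 : Nat.Coprime n 6 := by
      have h2 : Nat.Coprime n 2 := by
        rw [Nat.coprime_comm, Nat.Prime.coprime_iff_not_dvd Nat.prime_two]
        intro hd
        have := h 2 Nat.prime_two hd
        omega
      have h3 : Nat.Coprime n 3 := by
        rw [Nat.coprime_comm, Nat.Prime.coprime_iff_not_dvd Nat.prime_three]
        intro hd
        have := h 3 Nat.prime_three hd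
        omega
      exact Nat.Coprime.mul_right h2 h3
    have h2 := (Nat.isCoprime_iff_coprime.2 h1).map (Int.castRingHom (𝓞 K))
    simpa using h2
  · obtain ⟨p, hp, hpn, hpv⟩ := exists_prime_dvd v n hn hv
    exact no_sqrt hp (h p hp hpn) v hpv x

lemma exists_pi [IsPrincipalIdealRing (𝓞 K)] {c : 𝓞 K} (hc : IsCoprime c 6) :
    ∃ π : 𝓞 K, Prime π ∧ IsCoprime π (c * 3) := by
  have h2 : ¬ IsUnit (2 : 𝓞 K) := by
    intro h
    have h3 : IsUnit (algebraMap ℤ (𝓞 K) 2) := by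
      rw [map_ofNat]
      exact h
    have h4 : IsUnit (2 : ℤ) := isUnit_of_map_unit (algebraMap ℤ (𝓞 K)) 2 h3
    norm_num [Int.isUnit_iff] at h4
  obtain ⟨π, hπ, hd⟩ := WfDvdMonoid.exists_irreducible_factor h2 two_ne_zero
  have h6 : (2 : 𝓞 K) ∣ 6 := ⟨3, by norm_num⟩
  have h23 : IsCoprime (2 : 𝓞 K) 3 := ⟨-1, 1, by norm_num⟩
  refine ⟨π, hπ.prime, ?_⟩
  exact ((hc.of_isCoprime_of_dvd_right h6).of_isCoprime_of_dvd_right hd).symm.mul_right
    (h23.of_isCoprime_of_dvd_left hd)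

end good

theorem piece_of (hE1 : P_E1) (hE3 : P_E3) : P_E7 := by
  intro K B _ _ _ _ _ _ _ m hm0 hmq S hS hgen
  classical
  have : IsPrincipalIdealRing (𝓞 K) := IsCyclotomicExtension.Rat.three_pid K
  have hfd : FiniteDimensional K B := Module.Finite.of_restrictScalars_finite ℚ K B
  have : NeZero m := ⟨hm0.ne'⟩
  -- the root of unity
  obtain ⟨ζu, hζu⟩ := IsCyclic.exists_generator (α := rootsOfUnity m B)
  set ζ : B := ((ζu : Bˣ) : B) with hζ
  have hζm : ζ ^ m = 1 := by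
    have := ζu.2
    rw [mem_rootsOfUnity] at this
    have h := congrArg Units.val this
    rw [Units.val_pow_eq_pow_val] at h
    exact h
  set m' := orderOf ζ with hm'
  have hprim : IsPrimitiveRoot ζ m' := IsPrimitiveRoot.orderOf ζ
  have hdvd : m' ∣ m := orderOf_dvd_of_pow_eq_one hζm
  have hm'0 : m' ≠ 0 := ne_zero_of_dvd_ne_zero hm0.ne' hdvd
  have : NeZero m' := ⟨hm'0⟩
  let L : IntermediateField K B := IntermediateField.adjoin K {ζ}
  have hζL : ζ ∈ L := IntermediateField.mem_adjoin_simple_self K ζ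
  have hpow : ∀ z : B, z ^ m = 1 → z ∈ L := by
    intro z hz
    obtain ⟨k, hk⟩ := Subgroup.mem_zpowers_iff.1 (hζu (rootsOfUnity.mkOfPowEq z hz))
    have h1 : ζ ^ k = z := by
      have h2 := congrArg (fun t : rootsOfUnity m B => ((t : Bˣ) : B)) hk
      simpa using h2
    rw [← h1]
    exact zpow_mem hζL k
  -- the cube roots
  obtain ⟨θ, hθ⟩ := Field.exists_primitive_element K B
  obtain ⟨T0, hT0, hθT⟩ := IntermediateField.exists_finset_of_mem_adjoin
    (show θ ∈ IntermediateField.adjoin K ({z : B | z ^ m = 1} ∪ S) by rw [hgen]; trivial)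
  choose! D hD hD3 using hS
  let T1 : Finset B := T0.filter (· ∈ S)
  have hT1 : ∀ t ∈ T1, t ∈ S := fun t ht => (Finset.mem_filter.1 ht).2
  let F : IntermediateField K B := IntermediateField.adjoin K (T1 : Set B)
  have hsup : L ⊔ F = ⊤ := by
    rw [eq_top_iff, ← hθ, IntermediateField.adjoin_simple_le_iff]
    have h1 : IntermediateField.adjoin K (T0 : Set B) ≤ L ⊔ F := by
      rw [IntermediateField.adjoin_le_iff]
      intro t ht
      rcases hT0 ht with h | h
      · exact (le_sup_left : L ≤ L ⊔ F) (hpow t h)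
      · exact (le_sup_right : F ≤ L ⊔ F) (IntermediateField.subset_adjoin K _
          (Finset.mem_coe.2 (Finset.mem_filter.2 ⟨ht, h⟩)))
    exact h1 hθT
  let S' : Set F := {x : F | (x : B) ∈ T1}
  have hS' : IntermediateField.adjoin K S' = ⊤ := by
    apply IntermediateField.lift_injective
    rw [IntermediateField.lift_adjoin, IntermediateField.lift_top]
    change IntermediateField.adjoin K (Subtype.val '' S') = IntermediateField.adjoin K (T1 : Set B)
    congr 1
    ext t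
    constructor
    · rintro ⟨x, hx, rfl⟩
      exact hx
    · intro ht
      exact ⟨⟨t, IntermediateField.subset_adjoin K _ ht⟩, ht, rfl⟩
  have hS'D : ∀ x ∈ S', DCls (D (x : B)) ∧ x ^ 3 = ((D (x : B) : ℕ) : F) := by
    intro x hx
    refine ⟨hD _ (hT1 _ hx), ?_⟩
    apply Subtype.ext
    have := hD3 _ (hT1 _ hx)
    simpa using this
  have hGen : GenC K F := ⟨S', hS', fun x hx => ⟨_, hS'D x hx⟩⟩
  have : IsGalois K F := isGalois_of_gen hGen
  have : IsCyclotomicExtension {m'} K L :=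
    IsPrimitiveRoot.intermediateField_adjoin_isCyclotomicExtension K hprim
  have : IsGalois K L := IsCyclotomicExtension.isGalois {m'} K L
  obtain ⟨hg1, art₁, ha₁, -⟩ := hE1 K L L m' (fun q hq hqm => hmq q hq (hqm.trans hdvd))
  obtain ⟨c₂, art₂, hg2, ha₂, -⟩ := hE3 K F hGen
  obtain ⟨T, hTT, hT3⟩ := exists_conj K
  set n : ℕ := ∏ t ∈ T1, D t with hn
  have hn0 : n ≠ 0 := Finset.prod_ne_zero_iff.2 fun t ht => (hD t (hT1 t ht)).1.ne'
  have hnp : ∀ p : ℕ, p.Prime → p ∣ n → p % 12 = 7 := by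
    intro p hp hpn
    obtain ⟨t, ht, hpt⟩ := (hp.prime.dvd_finsetProd_iff _).1 hpn
    exact ((hD t (hT1 t ht)).2.1 p hp hpt).1
  have hgn : GoodC (n : 𝓞 K) := good_nat hn0 hnp
  set c : 𝓞 K := (m' : 𝓞 K) * (n : 𝓞 K) * (c₂ * T c₂) with hc
  have hgc : GoodC c := good_mul (good_mul hg1 hgn) (good_mul hg2 (good_conj T hg2))
  have hTc : T c = c := by
    rw [hc, map_mul, map_mul, map_mul, map_natCast, map_natCast, hTT]
    ring
  have h₁ : (m' : 𝓞 K) ∣ c := by rw [hc, mul_assoc]; exact dvd_mul_right _ _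
  have h₂ : c₂ ∣ c := ⟨(m' : 𝓞 K) * (n : 𝓞 K) * T c₂, by rw [hc]; ring⟩
  have hex := exists_pi hgc.2.1
  have hex' : ∃ π : 𝓞 K, Prime π ∧ IsCoprime π c := by
    obtain ⟨π, hπ, h⟩ := hex
    exact ⟨π, hπ, h.of_mul_right_left⟩
  obtain ⟨art, hL, hF, hunr, hfrob⟩ := comp_exists L F hsup h₁ h₂ hex' ha₁ ha₂
  have hsurj := surj_comp L F hsup h₁ h₂ hgc.1 ha₁ ha₂ hS' (fun s hs => by
    refine ⟨D (s : B), (hS'D s hs).1.1.ne', ?_, (hS'D s hs).2⟩
    have h4 : D (s : B) ∣ n := Finset.dvd_prod_of_mem D hs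
    have h5 : ((D (s : B) : ℕ) : 𝓞 K) ∣ (n : 𝓞 K) := by exact_mod_cast Nat.cast_dvd_cast h4
    refine h5.trans ⟨(m' : 𝓞 K) * (c₂ * T c₂), by rw [hc]; ring⟩) T hT3 hTc hex hL hF
  exact ⟨c, art, hgc, ⟨hsurj, hunr, hfrob⟩⟩

end Pool.Agent.W2helper8.TQE7
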